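import Mathlib

set_option autoImplicit false
open Matrix Complex
open scoped ComplexOrder Kronecker

namespace Pool.Agent.Results.MP_472e54_mp.Mirror

/-- Operators on `ℂ^d`. -/
abbrev Op (d : ℕ) := Matrix (Fin d) (Fin d) ℂ

/-- Operators on `ℂ^a ⊗ ℂ^b ⊗ ℂ^c`. -/
abbrev Op3 (a b c : ℕ) := Matrix (Fin a × Fin b × Fin c) (Fin a × Fin b × Fin c) ℂ

/-- The tensor product of three operators. -/
def T {a b c : ℕ} (A : Op a) (B : Op b) (C : Op c) : Op3 a b c := A ⊗ₖ (B ⊗ₖ C)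

/-- Density operators. -/
def IsState {ι : Type} [Fintype ι] (ρ : Matrix ι ι ℂ) : Prop := ρ.PosSemidef ∧ ρ.trace = 1

/-- Separable states: the convex hull of the product states. -/
def Sep (a b c : ℕ) : Set (Op3 a b c) :=
  convexHull ℝ {σ | ∃ (ρ₁ : Op a) (ρ₂ : Op b) (ρ₃ : Op c),
    IsState ρ₁ ∧ IsState ρ₂ ∧ IsState ρ₃ ∧ σ = T ρ₁ ρ₂ ρ₃}

/-- Entanglement witnesses. -/
def EW {a b c : ℕ} (W : Op3 a b c) : Prop :=
  W.IsHermitian ∧ (∀ σ ∈ Sep a b c, 0 ≤ (W * σ).trace.re) ∧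
    ∃ ρ : Op3 a b c, IsState ρ ∧ (W * ρ).trace.re < 0

/-- Optimal entanglement witnesses. -/
def Optimal {a b c : ℕ} (W : Op3 a b c) : Prop :=
  EW W ∧ ¬ ∃ (ε : ℝ) (P : Op3 a b c), 0 < ε ∧ P.PosSemidef ∧ P ≠ 0 ∧ EW (W - (ε : ℂ) • P)

/-- Related by local unitaries. -/
def LU {a b c : ℕ} (W M : Op3 a b c) : Prop :=
  ∃ U₁ ∈ unitaryGroup (Fin a) ℂ, ∃ U₂ ∈ unitaryGroup (Fin b) ℂ, ∃ U₃ ∈ unitaryGroup (Fin c) ℂ,
    M = T U₁ U₂ U₃ * W * (T U₁ U₂ U₃)ᴴ

section alg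
variable {a b c : ℕ}

lemma T_mul (A A' : Op a) (B B' : Op b) (C C' : Op c) :
    T A B C * T A' B' C' = T (A * A') (B * B') (C * C') := by
  simp only [T, mul_kronecker_mul]

lemma T_tr (A : Op a) (B : Op b) (C : Op c) : (T A B C).trace = A.trace * B.trace * C.trace := by
  simp only [T, trace_kronecker, mul_assoc]

lemma T_one : T (1 : Op a) (1 : Op b) (1 : Op c) = 1 := by simp [T]

lemma T_ct (A : Op a) (B : Op b) (C : Op c) : (T A B C)ᴴ = T Aᴴ Bᴴ Cᴴ := by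
  simp only [T, conjTranspose_kronecker]

lemma T_a1 (A A' : Op a) (B : Op b) (C : Op c) : T (A + A') B C = T A B C + T A' B C := by
  simp only [T, add_kronecker]
lemma T_a2 (A : Op a) (B B' : Op b) (C : Op c) : T A (B + B') C = T A B C + T A B' C := by
  simp only [T, add_kronecker, kronecker_add]
lemma T_a3 (A : Op a) (B : Op b) (C C' : Op c) : T A B (C + C') = T A B C + T A B C' := by
  simp only [T, kronecker_add]
lemma T_s1 (s : ℂ) (A : Op a) (B : Op b) (C : Op c) : T (s • A) B C = s • T A B C := by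
  simp only [T, smul_kronecker]
lemma T_s2 (s : ℂ) (A : Op a) (B : Op b) (C : Op c) : T A (s • B) C = s • T A B C := by
  simp only [T, smul_kronecker, kronecker_smul]
lemma T_s3 (s : ℂ) (A : Op a) (B : Op b) (C : Op c) : T A B (s • C) = s • T A B C := by
  simp only [T, kronecker_smul]

end alg

def X : Op 2 := !![0, 1; 1, 0]
def Y : Op 2 := !![0, -I; I, 0]
def Z : Op 2 := !![1, 0; 0, -1]

lemma XX : X * X = 1 := by ext i j; fin_cases i <;> fin_cases j <;> simp [X]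
lemma YY : Y * Y = 1 := by ext i j; fin_cases i <;> fin_cases j <;> simp [Y]
lemma ZZ : Z * Z = 1 := by ext i j; fin_cases i <;> fin_cases j <;> simp [Z]
lemma XY : X * Y = I • Z := by ext i j; fin_cases i <;> fin_cases j <;> simp [X, Y, Z]
lemma YX : Y * X = (-I) • Z := by ext i j; fin_cases i <;> fin_cases j <;> simp [X, Y, Z]
lemma YZ : Y * Z = I • X := by ext i j; fin_cases i <;> fin_cases j <;> simp [X, Y, Z]
lemma ZY : Z * Y = (-I) • X := by ext i j; fin_cases i <;> fin_cases j <;> simp [X, Y, Z]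
lemma ZX : Z * X = I • Y := by ext i j; fin_cases i <;> fin_cases j <;> simp [X, Y, Z]
lemma XZ : X * Z = (-I) • Y := by ext i j; fin_cases i <;> fin_cases j <;> simp [X, Y, Z]
lemma trX : X.trace = 0 := by simp [X, trace_fin_two]
lemma trY : Y.trace = 0 := by simp [Y, trace_fin_two]
lemma trZ : Z.trace = 0 := by simp [Z, trace_fin_two]
lemma tr1 : (1 : Op 2).trace = 2 := by simp
lemma hX : Xᴴ = X := by ext i j; fin_cases i <;> fin_cases j <;> simp [X, conjTranspose_apply]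
lemma hY : Yᴴ = Y := by ext i j; fin_cases i <;> fin_cases j <;> simp [Y, conjTranspose_apply]
lemma hZ : Zᴴ = Z := by ext i j; fin_cases i <;> fin_cases j <;> simp [Z, conjTranspose_apply]

noncomputable def C : Op3 2 2 2 :=
  T X X X + T Y Y Y + (1 / 3 : ℂ) • (T Z Z 1 + T Z 1 Z + T 1 Z Z)

lemma hC : Cᴴ = C := by
  simp [C, conjTranspose_add, conjTranspose_smul, T_ct, hX, hY, hZ]

lemma trC3 : (C * C * C).trace = 16 / 9 := by
  simp only [C, mul_add, add_mul, smul_add, Matrix.mul_smul, Matrix.smul_mul, T_mul, trace_add,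
    trace_smul, T_tr, XX, YY, ZZ, XY, YX, YZ, ZY, ZX, XZ, trX, trY, trZ, tr1, Matrix.mul_one,
    Matrix.one_mul, smul_eq_mul, mul_zero, zero_mul, add_zero, zero_add]
  norm_num

lemma bloch (ρ : Op 2) (h : IsState ρ) : ∃ x y z : ℝ, (X * ρ).trace = x ∧ (Y * ρ).trace = y ∧
    (Z * ρ).trace = z ∧ x ^ 2 + y ^ 2 + z ^ 2 ≤ 1 := by
  have h10 : ρ 1 0 = star (ρ 0 1) := (h.1.isHermitian.apply 1 0).symm
  have i0 := (Complex.le_def.1 (h.1.diag_nonneg (i := 0))).2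
  have i1 := (Complex.le_def.1 (h.1.diag_nonneg (i := 1))).2
  have ht := congrArg Complex.re h.2
  have hd := (Complex.le_def.1 h.1.det_nonneg).1
  rw [det_fin_two, h10] at hd
  simp [trace_fin_two] at ht hd i0 i1
  refine ⟨2 * (ρ 0 1).re, -2 * (ρ 0 1).im, (ρ 0 0).re - (ρ 1 1).re, ?_, ?_, ?_, ?_⟩
  · apply Complex.ext <;> simp [X, trace_fin_two, vecMul, dotProduct, Fin.sum_univ_two, h10]
    ring
  · apply Complex.ext <;> simp [Y, trace_fin_two, vecMul, dotProduct, Fin.sum_univ_two, h10]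
    ring
  · apply Complex.ext <;> simp [Z, trace_fin_two, vecMul, dotProduct, Fin.sum_univ_two, ← i0, ← i1]
    ring
  · rw [← i0] at hd
    nlinarith

lemma C_prod (ρ₁ ρ₂ ρ₃ : Op 2) (h₁ : ρ₁.trace = 1) (h₂ : ρ₂.trace = 1) (h₃ : ρ₃.trace = 1) :
    (C * T ρ₁ ρ₂ ρ₃).trace = (X * ρ₁).trace * (X * ρ₂).trace * (X * ρ₃).trace +
      (Y * ρ₁).trace * (Y * ρ₂).trace * (Y * ρ₃).trace +
      1 / 3 * ((Z * ρ₁).trace * (Z * ρ₂).trace + (Z * ρ₁).trace * (Z * ρ₃).trace +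
        (Z * ρ₂).trace * (Z * ρ₃).trace) := by
  simp only [C, add_mul, Matrix.smul_mul, T_mul, trace_add, trace_smul, T_tr, Matrix.one_mul, h₁, h₂,
    h₃, smul_eq_mul, mul_one, one_mul]

lemma am (p q u : ℝ) (h : u ^ 2 ≤ 1) : p * q * u ≤ (p ^ 2 + q ^ 2) / 2 := by
  have h1 : 0 ≤ 1 + u := by nlinarith
  have h2 : 0 ≤ 1 - u := by nlinarith
  nlinarith [mul_nonneg h1 (sq_nonneg (p - q)), mul_nonneg h2 (sq_nonneg (p + q))]

lemma pair (t x1 y1 z1 x2 y2 z2 x3 y3 z3 : ℝ) (ht : t ^ 2 = 1) (h1 : x1 ^ 2 + y1 ^ 2 + z1 ^ 2 ≤ 1)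
    (h2 : x2 ^ 2 + y2 ^ 2 + z2 ^ 2 ≤ 1) (h3 : x3 ^ 2 + y3 ^ 2 + z3 ^ 2 ≤ 1) :
    t * (x1 * x2 * x3 + y1 * y2 * y3 + z1 * z2) ≤ 1 := by
  have a1 := am x1 x2 (t * x3) (by rw [mul_pow, ht]; nlinarith)
  have a2 := am y1 y2 (t * y3) (by rw [mul_pow, ht]; nlinarith)
  have a3 := am z1 z2 t ht.le
  nlinarith

noncomputable def W (t : ℝ) : Op3 2 2 2 := 1 - (t : ℂ) • C

lemma W_tr (t : ℝ) (σ : Op3 2 2 2) : (W t * σ).trace = σ.trace - t * (C * σ).trace := by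
  simp [W, sub_mul, trace_sub]

lemma W_sep (t : ℝ) (ht : t ^ 2 = 1) : ∀ σ ∈ Sep 2 2 2, 0 ≤ (W t * σ).trace.re := by
  intro σ hσ
  refine convexHull_min (t := {σ | 0 ≤ (W t * σ).trace.re}) ?_ ?_ hσ
  · rintro _ ⟨ρ₁, ρ₂, ρ₃, h₁, h₂, h₃, rfl⟩
    obtain ⟨x1, y1, z1, a1, b1, c1, d1⟩ := bloch ρ₁ h₁
    obtain ⟨x2, y2, z2, a2, b2, c2, d2⟩ := bloch ρ₂ h₂
    obtain ⟨x3, y3, z3, a3, b3, c3, d3⟩ := bloch ρ₃ h₃
    have e : (W t * T ρ₁ ρ₂ ρ₃).trace = ((1 - t * (x1 * x2 * x3 + y1 * y2 * y3 +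
        1 / 3 * (z1 * z2 + z1 * z3 + z2 * z3)) : ℝ) : ℂ) := by
      rw [W_tr, C_prod _ _ _ h₁.2 h₂.2 h₃.2, T_tr, h₁.2, h₂.2, h₃.2, a1, a2, a3, b1, b2, b3, c1, c2, c3]
      push_cast; ring
    show 0 ≤ (W t * T ρ₁ ρ₂ ρ₃).trace.re
    rw [e, ofReal_re]
    have p1 := pair t _ _ _ _ _ _ _ _ _ ht d1 d2 d3
    have p2 := pair t _ _ _ _ _ _ _ _ _ ht d1 d3 d2
    have p3 := pair t _ _ _ _ _ _ _ _ _ ht d2 d3 d1
    nlinarith
  · intro x hx y hy p q hp hq _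
    have e : (W t * (p • x + q • y)).trace.re = p * (W t * x).trace.re + q * (W t * y).trace.re := by
      simp [mul_add, trace_add]
    show 0 ≤ (W t * (p • x + q • y)).trace.re
    rw [e]
    exact add_nonneg (mul_nonneg hp hx) (mul_nonneg hq hy)

lemma W_herm (t : ℝ) : (W t).IsHermitian := by
  simp [IsHermitian, W, conjTranspose_sub, conjTranspose_smul, hC]

/-- The state `(1 + s Q) / 2`. -/
noncomputable def pr (Q : Op 2) (s : ℝ) : Op 2 := (1 / 2 : ℂ) • (1 : Op 2) + ((s / 2 : ℝ) : ℂ) • Q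

lemma pr_state (Q : Op 2) (hQ : Qᴴ = Q) (h2 : Q * Q = 1) (h0 : Q.trace = 0) (s : ℝ)
    (hs : s ^ 2 = 1) : IsState (pr Q s) := by
  have hs' : (s : ℂ) ^ 2 = 1 := by exact_mod_cast hs
  refine ⟨?_, by simp [pr, h0]⟩
  have e : pr Q s = (pr Q s)ᴴ * pr Q s := by
    simp only [pr, conjTranspose_add, conjTranspose_smul, conjTranspose_one, hQ, mul_add, add_mul,
      Matrix.mul_smul, Matrix.smul_mul, Matrix.one_mul, Matrix.mul_one, h2, Complex.star_def,
      conj_ofReal, map_div₀, map_one, map_ofNat]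
    push_cast
    match_scalars
    · linear_combination (-1 / 4 : ℂ) * hs'
    · ring
  rw [e]; exact posSemidef_conjTranspose_mul_self _

lemma pr_sum (Q : Op 2) (t : ℝ) :
    T (pr Q 1) (pr Q 1) (pr Q t) + T (pr Q 1) (pr Q (-1)) (pr Q (-t)) +
      T (pr Q (-1)) (pr Q 1) (pr Q (-t)) + T (pr Q (-1)) (pr Q (-1)) (pr Q t) =
      (1 / 2 : ℂ) • (1 : Op3 2 2 2) + ((t / 2 : ℝ) : ℂ) • T Q Q Q := by
  simp only [pr, T_a1, T_a2, T_a3, T_s1, T_s2, T_s3, T_one]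
  push_cast
  module

lemma zeroX (t r s u : ℝ) (h : t * (r * s * u) = 1) :
    (W t * T (pr X r) (pr X s) (pr X u)).trace = 0 := by
  have h' : (t : ℂ) * (r * s * u) = 1 := by exact_mod_cast h
  rw [W_tr, C_prod _ _ _ (by simp [pr, trX]) (by simp [pr, trX]) (by simp [pr, trX]), T_tr]
  simp [pr, mul_add, XX, YX, ZX, trX, trY, trZ]
  linear_combination (-1 : ℂ) * h'

lemma zeroY (t r s u : ℝ) (h : t * (r * s * u) = 1) :
    (W t * T (pr Y r) (pr Y s) (pr Y u)).trace = 0 := by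
  have h' : (t : ℂ) * (r * s * u) = 1 := by exact_mod_cast h
  rw [W_tr, C_prod _ _ _ (by simp [pr, trY]) (by simp [pr, trY]) (by simp [pr, trY]), T_tr]
  simp [pr, mul_add, YY, XY, ZY, trX, trY, trZ]
  linear_combination (-1 : ℂ) * h'

lemma half (t : ℝ) (ht : t ^ 2 = 1) (Q : Op 2) (hQ : Qᴴ = Q) (h2 : Q * Q = 1) (h0 : Q.trace = 0)
    (hz : ∀ r s u : ℝ, t * (r * s * u) = 1 → (W t * T (pr Q r) (pr Q s) (pr Q u)).trace = 0)
    (ε : ℝ) (hε : 0 < ε) (P : Op3 2 2 2) (h : EW (W t - (ε : ℂ) • P)) :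
    P.trace.re + t * (P * T Q Q Q).trace.re ≤ 0 := by
  have key : ∀ r s u : ℝ, r ^ 2 = 1 → s ^ 2 = 1 → u ^ 2 = 1 → t * (r * s * u) = 1 →
      (P * T (pr Q r) (pr Q s) (pr Q u)).trace.re ≤ 0 := by
    intro r s u hr hs hu e
    have := h.2.1 _ (subset_convexHull ℝ _ ⟨_, _, _, pr_state Q hQ h2 h0 r hr,
      pr_state Q hQ h2 h0 s hs, pr_state Q hQ h2 h0 u hu, rfl⟩)
    rw [sub_mul, trace_sub, hz r s u e, Matrix.smul_mul, trace_smul, smul_eq_mul, zero_sub, neg_re,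
      re_ofReal_mul] at this
    by_contra hc
    have := mul_pos hε (not_le.1 hc)
    linarith
  have k1 := key 1 1 t (by norm_num) (by norm_num) ht (by linear_combination ht)
  have k2 := key 1 (-1) (-t) (by norm_num) (by norm_num) (by linear_combination ht)
    (by linear_combination ht)
  have k3 := key (-1) 1 (-t) (by norm_num) (by norm_num) (by linear_combination ht)
    (by linear_combination ht)
  have k4 := key (-1) (-1) t (by norm_num) (by norm_num) ht (by linear_combination ht)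
  have e := congrArg (fun S => (P * S).trace.re) (pr_sum Q t)
  simp only [mul_add, trace_add, add_re, Matrix.mul_smul, trace_smul, smul_eq_mul, Matrix.mul_one,
    re_ofReal_mul] at e
  have e2 : ((1 / 2 : ℂ) * P.trace).re = 1 / 2 * P.trace.re := by simp
  rw [e2] at e
  linarith

lemma opt (t : ℝ) (ht : t ^ 2 = 1) (h : EW (W t)) : Optimal (W t) := by
  refine ⟨h, ?_⟩
  rintro ⟨ε, P, hε, hP, hne, hE⟩
  have hx := half t ht X hX XX trX (zeroX t) ε hε P hE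
  have hy := half t ht Y hY YY trY (zeroY t) ε hε P hE
  have ht' : (t : ℂ) ^ 2 = 1 := by exact_mod_cast ht
  set B : Op3 2 2 2 := ((3 / 2 : ℝ) : ℂ) • (1 : Op3 2 2 2) + (t : ℂ) • (T X X X + T Y Y Y) with hB
  have hBB : B * Bᴴ = ((17 / 4 : ℝ) : ℂ) • (1 : Op3 2 2 2) + ((3 * t : ℝ) : ℂ) • T X X X +
      ((3 * t : ℝ) : ℂ) • T Y Y Y := by
    simp only [hB, conjTranspose_add, conjTranspose_smul, conjTranspose_one, T_ct, hX, hY, mul_add,
      add_mul, smul_add, Matrix.mul_smul, Matrix.smul_mul, Matrix.one_mul, Matrix.mul_one, T_mul, XX,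
      YY, XY, YX, T_s1, T_s2, T_s3, T_one, Complex.star_def, conj_ofReal]
    push_cast
    match_scalars
    · linear_combination (2 : ℂ) * ht'
    · ring
    · ring
    · ring
  have p := (Complex.le_def.1 (hP.conjTranspose_mul_mul_same B).trace_nonneg).1
  rw [trace_mul_cycle, trace_mul_comm, hBB] at p
  simp only [mul_add, trace_add, add_re, Matrix.mul_smul, trace_smul, smul_eq_mul, Matrix.mul_one,
    re_ofReal_mul, zero_re] at p
  have t0 := Complex.le_def.1 hP.trace_nonneg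
  have : P.trace = 0 := by
    apply Complex.ext
    · simp only [zero_re] at t0 ⊢
      linarith [t0.1]
    · exact t0.2.symm
  exact hne (hP.trace_eq_zero_iff.1 this)

def g (p q : Fin 2 × Fin 2 × Fin 2) (s : ℝ) : Fin 2 × Fin 2 × Fin 2 → ℂ :=
  fun i => if i = p then 1 else if i = q then (s : ℂ) else 0

noncomputable def st (p q : Fin 2 × Fin 2 × Fin 2) (s : ℝ) : Op3 2 2 2 :=
  (1 / 2 : ℂ) • vecMulVec (g p q s) (star (g p q s))

lemma st_psd (p q : Fin 2 × Fin 2 × Fin 2) (s : ℝ) : (st p q s).PosSemidef := by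
  refine (posSemidef_vecMulVec_self_star _).smul ?_
  rw [Complex.le_def]; norm_num

lemma ew1 : EW (W 1) := by
  have h : (st (0, 0, 0) (1, 1, 1) 1).trace = 1 := by
    simp [st, g, trace, vecMulVec_apply, Fintype.sum_prod_type, Fin.sum_univ_two]; norm_num
  refine ⟨W_herm 1, W_sep 1 (by norm_num), st (0, 0, 0) (1, 1, 1) 1, ⟨st_psd _ _ _, h⟩, ?_⟩
  rw [W_tr, h]
  simp [st, g, C, T, X, Y, Z, trace, mul_apply, vecMulVec_apply, Fintype.sum_prod_type,
    Fin.sum_univ_two]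
  norm_num

lemma ew2 : EW (W (-1)) := by
  have h : (st (0, 0, 1) (1, 1, 0) (-1)).trace = 1 := by
    simp [st, g, trace, vecMulVec_apply, Fintype.sum_prod_type, Fin.sum_univ_two]; norm_num
  refine ⟨W_herm _, W_sep _ (by norm_num), st (0, 0, 1) (1, 1, 0) (-1), ⟨st_psd _ _ _, h⟩, ?_⟩
  rw [W_tr, h]
  simp [st, g, C, T, X, Y, Z, trace, mul_apply, vecMulVec_apply, Fintype.sum_prod_type,
    Fin.sum_univ_two]
  norm_num

theorem result : ∃ (a b c : ℕ) (W M : Op3 a b c), 2 ≤ a ∧ 2 ≤ b ∧ 2 ≤ c ∧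
    Optimal W ∧ Optimal M ∧ (∃ u : ℝ, W + M = (u : ℂ) • (1 : Op3 a b c)) ∧ ¬ LU W M := by
  refine ⟨2, 2, 2, W 1, W (-1), le_rfl, le_rfl, le_rfl, opt 1 (by norm_num) ew1,
    opt (-1) (by norm_num) ew2, ⟨2, ?_⟩, ?_⟩
  · simp only [W]; push_cast; module
  · rintro ⟨U₁, h₁, U₂, h₂, U₃, h₃, e⟩
    set L := T U₁ U₂ U₃ with hL
    have l1 : L * Lᴴ = 1 := by
      rw [hL, T_ct, T_mul, ← star_eq_conjTranspose, ← star_eq_conjTranspose, ← star_eq_conjTranspose,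
        mem_unitaryGroup_iff.1 h₁, mem_unitaryGroup_iff.1 h₂, mem_unitaryGroup_iff.1 h₃, T_one]
    have l2 : Lᴴ * L = 1 := mul_eq_one_comm.1 l1
    have e2 : L * C * Lᴴ = -C := by
      simp only [W, mul_sub, sub_mul, Matrix.mul_one, l1, ofReal_one, one_smul, ofReal_neg, neg_smul,
        sub_neg_eq_add] at e
      linear_combination (norm := noncomm_ring) e
    have e3 : (L * C * Lᴴ) * (L * C * Lᴴ) * (L * C * Lᴴ) = L * (C * C * C) * Lᴴ := by
      calc _ = L * C * (Lᴴ * L) * C * (Lᴴ * L) * C * Lᴴ := by noncomm_ring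
        _ = _ := by rw [l2]; noncomm_ring
    have e4 := congrArg trace e3
    rw [e2, trace_mul_cycle L, l2, Matrix.one_mul] at e4
    simp only [neg_mul, mul_neg, neg_neg, trace_neg, trC3] at e4
    norm_num at e4

end Pool.Agent.Results.MP_472e54_mp.Mirror
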